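import Mathlib
import Pool.Agent.Helper760.EP.Base8

set_option autoImplicit false

namespace Pool.Agent.Results.MP_a7dd6b_lc.AKBounded

open Encodable
open Pool.Agent.Helper760.Kolm
open Pool.Agent.Helper760.EP

/-- preprocessing of the condition by a computable function which need not be total -/
theorem precond {α β δ : Type*} [Primcodable α] [Primcodable β] [Primcodable δ]
    (g : δ →. β) (hg : Partrec g) : ∃ c : ℕ, ∀ (d : δ) (b : β) (a : α), b ∈ g d →
      K a d ≤ K a b + c := by
  have hφ : Partrec (fun x : Unit × List Bool × δ =>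
      (g x.2.2).bind fun b => (M x.2.1 (encode b)).bind fun a' =>
        (Part.ofOption (decode (α := α) a') : Part α)) := by
    refine Partrec.bind (hg.comp (Computable.snd.comp Computable.snd)) (Partrec.bind ?_ ?_)
    · exact partrec_M.comp (Computable.fst.comp (Computable.snd.comp Computable.fst))
        (Computable.encode.comp Computable.snd)
    · exact (Computable.decode.comp Computable.snd).ofOption
  obtain ⟨c, hc⟩ := K_param _ hφ
  refine ⟨c, fun d b a h => ?_⟩
  obtain ⟨p, hp, hl⟩ := K_spec a b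
  have h2 := hc () p d a (by
    simp only [Part.mem_bind_iff]
    exact ⟨b, h, encode a, hp, by simp⟩)
  rw [size_encode_unit] at h2
  omega

theorem one_le_logb (n : ℕ) (hn : 2 ≤ n) : (1 : ℝ) ≤ Real.logb 2 n := by
  rw [Real.le_logb_iff_rpow_le (by norm_num) (by exact_mod_cast (by omega : 0 < n))]
  rw [Real.rpow_one]
  exact_mod_cast hn

theorem size_le_logb (n : ℕ) (hn : 2 ≤ n) : (Nat.size n : ℝ) ≤ 2 * Real.logb 2 n := by
  have h0 : 0 < Nat.size n := Nat.size_pos.2 (by omega)
  have h1 : 2 ^ (Nat.size n - 1) ≤ n := Nat.lt_size.1 (by omega)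
  have h2 : ((Nat.size n - 1 : ℕ) : ℝ) ≤ Real.logb 2 n := by
    rw [Real.le_logb_iff_rpow_le (by norm_num) (by exact_mod_cast (by omega : 0 < n))]
    rw [Real.rpow_natCast]
    exact_mod_cast h1
  have h3 := one_le_logb n hn
  rw [Nat.cast_sub (by omega)] at h2
  push_cast at h2
  linarith

theorem size_pow_le (n d : ℕ) (hd : 1 ≤ d) : Nat.size (n ^ d) ≤ d * Nat.size n := by
  induction d, hd using Nat.le_induction with
  | base => simp
  | succ d _ ih =>
    rw [pow_succ]
    have h1 := size_mul_le (n ^ d) n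
    have h2 : (d + 1) * Nat.size n = d * Nat.size n + Nat.size n := by ring
    omega

/-- **The Ahlswede–Körner lemma for Kolmogorov complexity, for all pairs `(x, y)`**, and all `z`
of complexity polynomial in `n`. The first clause says that the machines and encodings which are
quantified over exist. -/
theorem result :
    ((∃ U, OptPlain U) ∧ (∃ D, OptCond D) ∧ ∃ pr, PairCode pr) ∧
    ∀ (U : List Bool →. List Bool) (D : List Bool → List Bool →. List Bool)
      (pr : List Bool → List Bool → List Bool), OptPlain U → OptCond D → PairCode pr →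
      ∃ C : ℝ, ∀ d n : ℕ, 1 ≤ d → 2 ≤ n → ∀ x y z : List Bool,
        CU U (pr x y) ≤ n → CU U z ≤ n ^ d →
        ∃ z' : List Bool,
          |(CD D x z : ℝ) - CD D x z'| ≤ C * d * Real.logb 2 n ∧
          |(CD D y z : ℝ) - CD D y z'| ≤ C * d * Real.logb 2 n ∧
          |(CD D (pr x y) z : ℝ) - CD D (pr x y) z'| ≤ C * d * Real.logb 2 n ∧
          (CD D z' (pr x y) : ℝ) ≤ C * d * Real.logb 2 n := by
  refine ⟨exist_all, fun U D pr hU hD hpr => ?_⟩
  obtain ⟨c1, h1⟩ := plain_K U hU
  obtain ⟨c2, h2⟩ := cond_K D hD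
  obtain ⟨c3, h3⟩ := pair_K pr hpr
  obtain ⟨un, hun, hun2⟩ := J4305.auxLL_un pr hpr
  obtain ⟨c4, h4⟩ := precond (α := List Bool) un hun
  obtain ⟨c5, h5⟩ := K_comp (α := List Bool) (β := Unit) (γ := Unit)
    (fun (d : List Bool × List Bool) (_ : Unit) => d.1)
    (Computable.fst.comp Computable.fst).to₂ id Computable.id
  obtain ⟨c6, h6⟩ := K_comp (α := List Bool) (β := Unit) (γ := Unit)
    (fun (d : List Bool × List Bool) (_ : Unit) => d.2)
    (Computable.snd.comp Computable.fst).to₂ id Computable.id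
  obtain ⟨CA, hA⟩ := ak_bounded
  set c0 := c1 + c3 + c5 + c6 with hc0
  set E := CA * (Nat.size c0 + 10) + 2 * c2 + 2 * c3 + c4 with hE
  refine ⟨2 * E, ?_⟩
  intro d n hd hn x y z hxy hz
  set N := n ^ d + n + c0 with hN
  have kxy : K (x, y) () ≤ n + c1 + c3 := by
    have a1 := h1 (pr x y)
    have a2 := (h3 x y).1
    unfold ap at a1 a2
    omega
  have kx : K x () ≤ N := by
    have a1 : K x () ≤ K (x, y) () + c5 := h5 (x, y) ()
    omega
  have ky : K y () ≤ N := by
    have a1 : K y () ≤ K (x, y) () + c6 := h6 (x, y) ()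
    omega
  have kz : K z () ≤ N := by
    have a1 := h1 z
    unfold ap at a1
    omega
  obtain ⟨w, w1, w2, w3, w4⟩ := hA N x y z kx ky kz
  have hlam : lam N ≤ (Nat.size c0 + 10) * (d * Nat.size n) := by
    have s0 : 1 ≤ Nat.size n := Nat.size_pos.2 (by omega)
    have s1 := size_pow_le n d hd
    have s2 : Nat.size n ≤ d * Nat.size n := Nat.le_mul_of_pos_left _ hd
    have s3 := size_add_le (n ^ d + n) c0
    have s4 := size_add_le (n ^ d) n
    have s5 : Nat.size c0 ≤ Nat.size c0 * (d * Nat.size n) :=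
      Nat.le_mul_of_pos_right _ (by omega)
    have s6 : (Nat.size c0 + 10) * (d * Nat.size n) =
      Nat.size c0 * (d * Nat.size n) + 10 * (d * Nat.size n) := by ring
    rw [← hN] at s3
    unfold lam
    omega
  have hd0 : 1 ≤ d * Nat.size n := by
    have s0 : 1 ≤ Nat.size n := Nat.size_pos.2 (by omega)
    have s2 : Nat.size n ≤ d * Nat.size n := Nat.le_mul_of_pos_left _ hd
    omega
  have hEb : CA * lam N + (2 * c2 + 2 * c3 + c4) ≤ E * (d * Nat.size n) := by
    have e1 := Nat.mul_le_mul_left CA hlam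
    have e2 : 2 * c2 + 2 * c3 + c4 ≤ (2 * c2 + 2 * c3 + c4) * (d * Nat.size n) :=
      Nat.le_mul_of_pos_right _ hd0
    have e3 : E * (d * Nat.size n) = CA * ((Nat.size c0 + 10) * (d * Nat.size n)) +
      (2 * c2 + 2 * c3 + c4) * (d * Nat.size n) := by rw [hE]; ring
    omega
  have hfin : ∀ m : ℕ, m ≤ E * (d * Nat.size n) → (m : ℝ) ≤ 2 * (E : ℝ) * d * Real.logb 2 n := by
    intro m hm
    have e1 : (m : ℝ) ≤ (E : ℝ) * ((d : ℝ) * (Nat.size n : ℝ)) := by exact_mod_cast hm
    have e2 := size_le_logb n hn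
    have e3 : (E : ℝ) * ((d : ℝ) * (Nat.size n : ℝ)) ≤
        (E : ℝ) * ((d : ℝ) * (2 * Real.logb 2 n)) := by gcongr
    calc (m : ℝ) ≤ (E : ℝ) * ((d : ℝ) * (2 * Real.logb 2 n)) := e1.trans e3
      _ = _ := by ring
  have habs : ∀ a b : ℕ, a ≤ b + E * (d * Nat.size n) → b ≤ a + E * (d * Nat.size n) →
      |(a : ℝ) - b| ≤ 2 * (E : ℝ) * d * Real.logb 2 n := by
    intro a b ha hb
    have e1 := hfin (E * (d * Nat.size n)) le_rfl
    have ha' : (a : ℝ) ≤ b + ((E * (d * Nat.size n) : ℕ) : ℝ) := by exact_mod_cast ha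
    have hb' : (b : ℝ) ≤ a + ((E * (d * Nat.size n) : ℕ) : ℝ) := by exact_mod_cast hb
    rw [abs_le]
    constructor <;> linarith
  unfold ap at w1 w2 w3
  refine ⟨w, habs _ _ ?_ ?_, habs _ _ ?_ ?_, habs _ _ ?_ ?_, hfin _ ?_⟩
  · have a1 := h2 x z
    have a2 := h2 x w
    unfold ap at a1 a2
    omega
  · have a1 := h2 x z
    have a2 := h2 x w
    unfold ap at a1 a2
    omega
  · have a1 := h2 y z
    have a2 := h2 y w
    unfold ap at a1 a2
    omega
  · have a1 := h2 y z
    have a2 := h2 y w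
    unfold ap at a1 a2
    omega
  · have a1 := h2 (pr x y) z
    have a2 := h2 (pr x y) w
    have a3 := (h3 x y).2.1 z
    have a4 := (h3 x y).2.1 w
    unfold ap at a1 a2 a3 a4
    omega
  · have a1 := h2 (pr x y) z
    have a2 := h2 (pr x y) w
    have a3 := (h3 x y).2.1 z
    have a4 := (h3 x y).2.1 w
    unfold ap at a1 a2 a3 a4
    omega
  · have a1 := h2 w (pr x y)
    have a2 : K w (pr x y) ≤ K w (x, y) + c4 := h4 (pr x y) (x, y) w (hun2 x y)
    unfold ap at a1
    omega

end Pool.Agent.Results.MP_a7dd6b_lc.AKBounded
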